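import Pool.Agent.Helper48.KGame

set_option autoImplicit false

open Pool.Agent.Helper48.KGame

/-- There is a zero-dimensional Hausdorff Lindelöf space in which countable intersections of open
sets are open and on which the game `G_fin(K_X, K_X)` is undetermined. -/
theorem Pool.Agent.Results.MP_367a9a_gt.QTwo.result :
    ∃ (X : Type) (_ : TopologicalSpace X),
      T2Space X ∧ LindelofSpace X ∧
      TopologicalSpace.IsTopologicalBasis {s : Set X | IsClopen s} ∧
      (∀ U : ℕ → Set X, (∀ n, IsOpen (U n)) → IsOpen (⋂ n, U n)) ∧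
      ¬ P1WinsGFin X ∧ ¬ P2WinsGFin X := by
  obtain ⟨X, hX, h1, h2, h3, h4, _, _, h5, h6⟩ := main
  exact ⟨X, hX, h1, h2, h3, h4, h5, h6⟩
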